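import Pool.Agent.H938R3.HT.Stmts

set_option autoImplicit false

/-! Left endpoints of the runs of block indices of a union. -/

namespace Pool.Agent.H3R3.HT

open Pool.Agent.H938R3.HT

theorem blk_le_iff {x : ℕ → ℕ} (hx : StrictMono x) (n p : ℕ) : blk x n ≤ p ↔ n ≤ x p := by
  have hmem : n ≤ x (blk x n) := Nat.sInf_mem (s := {i | n ≤ x i}) ⟨n, hx.le_apply⟩
  constructor
  · intro h
    exact hmem.trans (hx.monotone h)
  · intro h
    exact Nat.sInf_le h

theorem mem_EE {x : ℕ → ℕ} {F : Finset ℕ} {i : ℕ} :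
    i ∈ EE x F ↔ (∃ n ∈ F, blk x n = i) ∧ ∀ n ∈ F, blk x n + 1 ≠ i := by
  unfold EE
  rw [Finset.mem_filter, Finset.mem_image]
  constructor
  · rintro ⟨h1, h2⟩
    exact ⟨h1, fun n hn => h2 _ (Finset.mem_image_of_mem _ hn)⟩
  · rintro ⟨h1, h2⟩
    refine ⟨h1, ?_⟩
    intro j hj
    obtain ⟨n, hn, rfl⟩ := Finset.mem_image.1 hj
    exact h2 n hn

theorem ee : TaskEE := by
  intro x hx p G h hne hG hh
  have h1 : ∀ n ∈ G, blk x n ≤ p := fun n hn => (blk_le_iff hx n p).2 (hG n hn)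
  have h2 : ∀ n ∈ h, p + 2 ≤ blk x n := by
    intro n hn
    have h3 : ¬ blk x n ≤ p + 1 := by
      rw [blk_le_iff hx]
      exact not_le.2 (hh n hn)
    omega
  refine ⟨?_, ?_, ?_, ?_⟩
  · ext i
    rw [Finset.mem_union, mem_EE, mem_EE, mem_EE]
    constructor
    · rintro ⟨⟨n, hn, hni⟩, h3⟩
      rcases Finset.mem_union.1 hn with h4 | h4
      · exact Or.inl ⟨⟨n, h4, hni⟩, fun k hk => h3 k (Finset.mem_union_left _ hk)⟩
      · exact Or.inr ⟨⟨n, h4, hni⟩, fun k hk => h3 k (Finset.mem_union_right _ hk)⟩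
    · rintro (⟨⟨n, hn, hni⟩, h3⟩ | ⟨⟨n, hn, hni⟩, h3⟩)
      · refine ⟨⟨n, Finset.mem_union_left _ hn, hni⟩, ?_⟩
        intro k hk
        rcases Finset.mem_union.1 hk with h4 | h4
        · exact h3 k h4
        · have h5 := h2 k h4
          have h6 := h1 n hn
          omega
      · refine ⟨⟨n, Finset.mem_union_right _ hn, hni⟩, ?_⟩
        intro k hk
        rcases Finset.mem_union.1 hk with h4 | h4
        · have h5 := h1 k h4
          have h6 := h2 n hn
          omega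
        · exact h3 k h4
  · intro i hi
    obtain ⟨⟨n, hn, hni⟩, _⟩ := mem_EE.1 hi
    rw [← hni]
    exact h1 n hn
  · intro i hi
    obtain ⟨⟨n, hn, hni⟩, _⟩ := mem_EE.1 hi
    rw [← hni]
    exact h2 n hn
  · obtain ⟨n, hn, hmin⟩ := Finset.exists_min_image h (blk x) hne
    refine ⟨blk x n, mem_EE.2 ⟨⟨n, hn, rfl⟩, ?_⟩⟩
    intro k hk hkn
    have := hmin k hk
    omega

end Pool.Agent.H3R3.HT
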